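import Pool.Agent.J6H24.AV.Fin3

/-!
The orders of vanishing at `s = 1` of the L-functions of an arbitrary abelian variety over a function
field in all Galois extensions of degree a power of `ℓ`: for almost all primes `ℓ` they are bounded by
the order over the ground field.
-/

set_option autoImplicit false
set_option linter.all false
set_option maxHeartbeats 4000000

open Polynomial Pool.Agent.W343.BSD Pool.Agent.J6H24.AV

namespace Pool.Agent.Results.MP_9faec4_nt.AbelianVarietyTowers

/-- Almost all primes: `L_B` over `K` is `(1 - q T) ^ r G₀ / H₀` with `G₀(1 / q) ≠ 0`, where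
`q = |k|`, so `r` is its order of vanishing if `H₀ = 1`. For all the primes `ℓ` which do not divide `N`,
for all finite sets `T` of places `v` at which `det(q_v - F_v)` is not divisible by `ℓ`, and for all
Galois extensions `M` of `K` of degree `ℓ ^ n`, unramified outside `B ∪ T`, the function `L_(B ∪ T)`
over `M` satisfies the last equation. -/
def AlmostAll (k K : Type) [Field k] [Field K] [Algebra k K] : Prop :=
  ∀ (d : ℕ) (B : Finset (FF.Place k K)) (F : System k K d) (r : ℕ) (G₀ H₀ : ℤ[X]),
    IsQuotient (B : Set (FF.Place k K)) F ((1 - C (Nat.card k : ℤ) * X) ^ r * G₀) H₀ →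
    aeval ((Nat.card k : ℚ)⁻¹) G₀ ≠ 0 →
    ∃ N : ℕ, N ≠ 0 ∧ ∀ (ℓ : ℕ) [Fact ℓ.Prime], ¬ ℓ ∣ N → ∀ T : Finset (FF.Place k K),
      (∀ v ∈ T, v ∉ B → ¬ (ℓ : ℤ) ∣ (F v).charpoly.eval (Nat.card (S.Res v) : ℤ)) →
      ∀ (M : Type) [Field M] [Algebra k M] [Algebra K M] [IsScalarTower k K M] (n : ℕ),
        IsUnramified ℓ n ((B : Set (FF.Place k K)) ∪ T) M → ∀ F' : System k M d,
        IsBaseChange ((B : Set (FF.Place k K)) ∪ T) F F' → ∀ (j m : ℕ) (G H : ℤ[X]),
        NeZeroMod ℓ H →
        IsQuotient (above M ((B : Set (FF.Place k K)) ∪ T)) F'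
          ((1 - C ((Nat.card k : ℤ) ^ ℓ ^ j) * X ^ ℓ ^ j) ^ m * G) H →
        ℓ ^ j * m + mult ℓ (Nat.card k) G + ℓ ^ n * mult ℓ (Nat.card k) H₀ =
          mult ℓ (Nat.card k) H + ℓ ^ n * r

/-- The formula for all primes: if `L_B` over `K` is `R₀ / H₀`, and over `M` it is `R / H`, then
`mult R - mult H = ℓ ^ n (mult R₀ - mult H₀)`. -/
def Formula (k K : Type) [Field k] [Field K] [Algebra k K] : Prop :=
  ∀ (d : ℕ) (B : Finset (FF.Place k K)) (F : System k K d) (ℓ : ℕ) [Fact ℓ.Prime] (R₀ H₀ : ℤ[X]),
    IsQuotient (B : Set (FF.Place k K)) F R₀ H₀ → NeZeroMod ℓ R₀ →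
    ∀ (M : Type) [Field M] [Algebra k M] [Algebra K M] [IsScalarTower k K M] (n : ℕ),
      IsUnramified ℓ n (B : Set (FF.Place k K)) M → ∀ F' : System k M d,
      IsBaseChange (B : Set (FF.Place k K)) F F' → ∀ (R H : ℤ[X]), NeZeroMod ℓ R →
      IsQuotient (above M (B : Set (FF.Place k K))) F' R H →
      mult ℓ (Nat.card k) R + ℓ ^ n * mult ℓ (Nat.card k) H₀ =
        mult ℓ (Nat.card k) H + ℓ ^ n * mult ℓ (Nat.card k) R₀

/-- The explicit formula if the Euler factors outside `B` are congruent modulo `ℓ` to the
`∏ (1 - q_v ^ (i j) T)`; `P` is the numerator of the zeta function of `K`. -/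
def Cyclotomic (k K : Type) [Field k] [Field K] [Algebra k K] : Prop :=
  ∀ (P : ℤ[X]), S.IsZetaNum k K P →
    ∀ (d : ℕ) (B : Finset (FF.Place k K)) (F : System k K d) (ℓ : ℕ) [Fact ℓ.Prime],
    (ℓ : k) ≠ 0 → ∀ i : Fin d → ℕ, (∀ v ∉ B, (F v).charpolyRev.map (Int.castRingHom (ZMod ℓ)) =
      ∏ j, (1 - C (((Nat.card (S.Res v) : ℕ) : ZMod ℓ) ^ i j) * X)) →
    ∀ (M : Type) [Field M] [Algebra k M] [Algebra K M] [IsScalarTower k K M] (n : ℕ),
      IsUnramified ℓ n (B : Set (FF.Place k K)) M → ∀ F' : System k M d,
      IsBaseChange (B : Set (FF.Place k K)) F F' → ∀ (R H : ℤ[X]), NeZeroMod ℓ H →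
      IsQuotient (above M (B : Set (FF.Place k K))) F' R H →
      mult ℓ (Nat.card k) R +
          ℓ ^ n * ∑ j, (term ℓ (Nat.card k) (i j) 1 + term ℓ (Nat.card k) (i j + 1) 1) =
        mult ℓ (Nat.card k) H + ℓ ^ n * ∑ j, (multAt ℓ (Nat.card k) (i j) P +
          ∑ v ∈ B, term ℓ (Nat.card k) (i j) (S.deg v))

/-- **Abelian varieties over function fields in `ℓ`-extensions, for almost all primes `ℓ`.**

Let `k` be a finite field with `q` elements, `K` the function field of a curve over `k` and `A` an
arbitrary abelian variety over `K`, of dimension `g`. Let `B` be a finite set of places of `K`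
containing those of bad reduction. For the other places let `F_v` be an integral `2 g` by `2 g` matrix
whose characteristic polynomial is that of the geometric Frobenius at `v` on `H¹(A)` (Weil). Then
`L_B(T) = ∏ det(1 - F_v T ^ (deg v))⁻¹`, the product over the places not in `B`, is the L-function
`Φ_1` of `A` in the variable `T = q ^ (-s)`, for the model over the complement of `B`. It is a rational
function, and a polynomial if the `K / k`-trace of `A` is zero (Grothendieck); the Euler factors at
the places in `B` have no zeros and poles at `s = 1`, so that its order at `1 / q` is that of the complete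
L-function `L(A / K, s)` at `s = 1`. If `M` is a finite extension of `K` then the Frobenius at a place
`w` over `v`, of residue degree `f`, is the power `f` of the Frobenius at `v` (`IsBaseChange`). The
degrees of the places of `M` are taken over `k`; if the field of constants of `M` has degree
`c` over `k`, the L-function over `M` is a function of `T ^ c`, and its order of vanishing `m` at
`s = 1` is the exponent of `1 - (q T) ^ c`. In general the theorem holds for all systems of integral
matrices `F_v`.

(1) Let `r` be the order of vanishing of `L(A / K, s)` at `s = 1`, and suppose first that the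
`K / k`-trace of `A` is zero. For all but finitely many primes `ℓ` the following is true (for
`ℓ > 2 g + 1` the trace of `A` over `M` is zero too, because a group of order a power of `ℓ` acts
trivially on an abelian variety of dimension at most `g`): for every Galois extension `M` of `K` of
degree a power of `ℓ`, with field of constants `k'`, which is unramified outside `B` and the places
`v` for which `ℓ` does not divide the number of the points of the reduction `A_v` (this is
`q_v ^ (- g) det(q_v - F_v)`, by the functional equation), one has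

`ord_{s = 1} L(A / M, s) ≤ [M : K k'] ord_{s = 1} L(A / K, s)`.

For traces different from zero there are the terms with the denominators `H₀`, `H`.

In particular, if `L(A / K, 1) ≠ 0`, then `L(A / M, 1) ≠ 0` for all these extensions `M`: the ranks of
`A(K)` and `A(M)` are zero by Tate's inequality, Tate's conjecture (Q1) holds for `A` over `M`, and by
Kato and Trihan the Tate-Shafarevich group of `A` over `M` is finite and the formula of Birch and
Swinnerton-Dyer holds. So this conjecture for an abelian variety with `L(A / K, 1) ≠ 0` implies it, for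
almost all `ℓ`, in the whole (in general infinite) maximal `ℓ`-extension of `K` unramified outside `B`
and the places with `A_v(k_v)[ℓ] = 0`; there the multiplicity of `1 / q` modulo `ℓ` is also zero, so the
value `L_B(A / M, 1)` is not divisible by `ℓ`. The proof gives the finite set of the exceptional `ℓ`: the
prime divisors of `q` and of the numerator of `G₀(1 / q)`.

(2) For each prime `ℓ` the multiplicities modulo `ℓ` satisfy Kida's formula: if
`L_B(A / K) = R₀ / H₀` and `L_B(A / M) = R / H` then `mult R - mult H = [M : K] (mult R₀ - mult H₀)`, where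
`mult` is the multiplicity of the zero `1 / q` modulo `ℓ`; for `R = (1 - (q T) ^ c) ^ m G` it is at least
`c m`.

(3) Let `ℓ` be any prime different from the characteristic, and suppose that the semisimplification of
`A[ℓ]` is a sum of powers of the cyclotomic character; this is so for instance if `A = E` is an
elliptic curve with a `K`-rational point of order `ℓ`, with the exponents `0, 1`. Then, with the numerator
`P` of the zeta function of `K`,

`mult R - mult H = [M : K] ∑_j (mult P(q ^ (i j) T) - [q ^ (i j) = q] - [q ^ (i j) = 1] +
∑_{v ∈ B} term_v)`,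

where the brackets are `1` if the congruence holds modulo `ℓ` and `0` otherwise, and `term_v` is the
greatest power of `ℓ` dividing `deg v` if `q_v ^ (i j) = q_v` modulo `ℓ` and `0` otherwise. For
instance, if `A[ℓ]` is unipotent and `ℓ` divides `q - 1` this is
`2 g [M : K] (mu_K - 2 + ∑_{v ∈ B} ℓ ^ (ord_ℓ (deg v)))`, where `mu_K` is the multiplicity of the zero
`1` of `P` modulo `ℓ`: in the formula `2 g (2 g_K - 2 + ∑_{v ∈ B} deg v)` of Grothendieck, Ogg and
Shafarevich for the degree of `L_B` the number `2 g_K` and the degrees of the places are replaced by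
`mu_K` and the `ℓ`-parts of the degrees. -/
theorem result (k K : Type) [Field k] [Finite k] [Field K] [Algebra k K]
    (hK : IsCurveField k K) : AlmostAll k K ∧ Formula k K ∧ Cyclotomic k K := by
  classical
  have hFF : FF.IsFF k K := ⟨hK.essFiniteType, hK.trdeg_eq_one⟩
  have hrK : constDeg k K = 1 := by
    unfold constDeg
    have h1 : algebraicClosure k K = ⊥ := by
      rw [eq_bot_iff]
      intro x hx
      obtain ⟨c, hc⟩ := hK.algClosed x (mem_algebraicClosure_iff.1 hx)
      rw [IntermediateField.mem_bot]
      exact ⟨c, hc⟩
    rw [h1, IntermediateField.finrank_bot]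
  refine ⟨fun d B F r G₀ H₀ h0 hG => almost h0 hG, ?_, ?_⟩
  · intro d B F ℓ hp R₀ H₀ h0 hR0 M _ _ _ _ n hM F' hF' R H hR h
    have hfdM : FiniteDimensional K M := Module.finite_of_finrank_pos (by
      rw [hM.degree]
      exact pow_pos hp.out.pos n)
    have hFFM : FF.IsFF k M := isFF_of_finite (K := K)
    exact formula (Nat.card k) (kida hM hF') (red_invL_ne _ F) h0 h hR0 hR
  · intro P hP d B F ℓ hp hℓ i hF M _ _ _ _ n hM F' hF' R H hH h
    have hfdM : FiniteDimensional K M := Module.finite_of_finrank_pos (by
      rw [hM.degree]
      exact pow_pos hp.out.pos n)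
    have hFFM : FF.IsFF k M := isFF_of_finite (K := K)
    exact cyclo hrK ((S.isZetaNum_iff P).1 hP) (card_ne_zero_mod hℓ) hF (kida hM hF') h hH

end Pool.Agent.Results.MP_9faec4_nt.AbelianVarietyTowers
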