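import Pool.Agent.J6H34.RC.Final

/-!
# Tate's conjecture in terms of sums over the closed points, over an arbitrary finitely generated field

Let `K` be a finitely generated field of any characteristic, `R` a domain which is finitely generated as a
ring with field of fractions `K`, `D = dim R ≥ 1` (so `D = trdeg K + 1` in characteristic zero, and
`D = trdeg K` in characteristic `p`).  Let `X` be a projective scheme over `R`, given by equations, whose
fibres over the closed points `y` with `M ∉ y` are smooth and geometrically connected of dimension `d`; let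
`α_{y,j}` be the eigenvalues of Frobenius on `H^i` of the fibre over `y`, and
`Φ_i(s) = ∏_y ∏_j (1 - α_{y,j} q_y^{-s})⁻¹`, for `Re s > D + i/2`.  Let `s₀` be a real point with
`(i + 1)/2 ≤ s₀ ≤ D + i/2`, and `r` an integer.  For `i = 1`, `s₀ = D`, and for `r` the rank of
`Pic⁰(K)`, the following statement (1) is Tate's form of the conjecture of Birch and Swinnerton-Dyer (Q1);
`i = 2`, `s₀ = D + 1` is the statement (ii) of the problem, and `i = 0`, `s₀ = D - 1` the order `e(𝒵)`.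

We prove that the following are equivalent:

1. `Φ_i` continues meromorphically to a neighbourhood of the segment `[s₀, D + i/2]`, and its order at `s₀`
   is `r`;
2. there is an integral function `n` of finite support in `[s₀, D + i/2]`, with `n(s₀) = r`, such that the
   sums over the closed points
   `∑_y ∑_k tr(Frob_y^k) q_y^{-ks} / (k Γ(1 + k log q_y / log x))
     + ∑_a n(a) ∑_k e^{-k(s-a)} / (k Γ(1 + k / log x))`
   converge as `x → ∞` on a rectangle around the segment, with the error `O(1 / log x)`;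
3. there is such an `n` for which these sums are only bounded on a rectangle around the segment, along
   some sequence `x_k → ∞`;
4. `Φ_i` continues to the segment, and with the kernel `e^{icu} / Γ(1 + u)`, for all `c > π/2`,
   `∑_y ∑_k tr(Frob_y^k) q_y^{-ks₀} e^{icu} / (k Γ(1 + u))`, where `u = k log q_y / log x`, is
   `-r (log log x - Λ_c) + log |L| - iπ e + O(1 / log x)`, where `L ≠ 0` is the leading coefficient, the
   limit of `(s - s₀)^{-r} Φ_i(s)`, and `e` is the number of the real zeros minus the number of the real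
   poles of `Φ_i` to the right of `s₀`;
5. `Φ_i` continues to the segment, and for some `c > π/2` and some sequence `x_k → ∞` these sums, divided by
   `log log x_k`, tend to `-r`.

If `s₀ > (D + i)/2` (for `i = 1`, `s₀ = D` this is `D ≥ 2`), the same holds with the sums over the terms
`k = 1` only, the sums of the traces (for a curve and `i = 1`, of the numbers `q_y + 1 - #X_y(k(y))`), with
the additional constant `- ∑_y ∑_{k ≥ 2} tr(Frob_y^k) q_y^{-ks₀} / k` in 4.

The statements 2 and 3 have no hypothesis on the continuation.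
-/

set_option autoImplicit false

namespace Pool.Agent.Results.MP_9faec4_nt.ClosedPointLaw

open Filter Topology Asymptotics

/-- The integral models of the finitely generated field `K` have dimension `D`: the degree of
transcendence is `D - 1` in characteristic zero, and `D` in characteristic `p`. -/
def HasDim (K : Type) [Field K] (D : ℕ) : Prop :=
  (∃ _ : CharZero K, Algebra.trdeg ℚ K + 1 = D) ∨
    ∃ (p : ℕ) (_ : Fact p.Prime) (_ : Algebra (ZMod p) K), Algebra.trdeg (ZMod p) K = D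

/-- The norm `q_y` of a closed point: the number of the elements of the residue field. -/
noncomputable def norm {R : Type} [CommRing R] (y : MaximalSpectrum R) : ℕ := Nat.card (R ⧸ y.asIdeal)

/-- Let `X` be a set of homogeneous polynomials over `R`, the equations of a projective scheme over `R`.
For a field `κ` with `q` elements and a homomorphism `R → κ`, this is the number of the nonzero
solutions in `κ`, that is, `q - 1` times the number of the points of `X` over `κ`. -/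
noncomputable def cone {R : Type} [CommRing R] {n : ℕ} (X : Set (MvPolynomial (Fin n) R)) {κ : Type}
    [Field κ] (φ : R →+* κ) : ℕ :=
  Nat.card {u : Fin n → κ // u ≠ 0 ∧ ∀ f ∈ X, MvPolynomial.eval₂ φ u f = 0}

/-- `α_1, …, α_N` are the eigenvalues of Frobenius on `H^i` of the fibre `X_y` over the closed point `y`,
smooth, projective and geometrically connected of dimension `d`: there are finite multisets `β_k`, of
numbers of absolute value `q_y^{k/2}`, with `β_0 = {1}`, `β_{2d} = {q_y^d}`, `β_i = {α_1, …, α_N}`, such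
that for every extension `κ` of degree `e` of the residue field the number of the points of `X_y` over `κ`
is `∑_{k ≤ 2d} (-1)^k ∑_{z ∈ β_k} z^e`. -/
def IsFrobenius {R : Type} [CommRing R] {n : ℕ} (X : Set (MvPolynomial (Fin n) R)) (d i : ℕ)
    (y : MaximalSpectrum R) {N : ℕ} (α : Fin N → ℂ) : Prop :=
  ∃ β : ℕ → Multiset ℂ, β i = Finset.univ.val.map α ∧ β 0 = {1} ∧
    β (2 * d) = {(norm y : ℂ) ^ d} ∧ (∀ k, ∀ z ∈ β k, ‖z‖ = (norm y : ℝ) ^ ((k : ℝ) / 2)) ∧
    ∀ (κ : Type) [Field κ] [Finite κ] (φ : R →+* κ) (e : ℕ), RingHom.ker φ = y.asIdeal →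
      Nat.card κ = norm y ^ e →
      (cone X φ : ℂ) = ((norm y : ℂ) ^ e - 1) *
        ∑ k ∈ Finset.range (2 * d + 1), (-1 : ℂ) ^ k * ((β k).map fun z => z ^ e).sum

/-- The closed points `y` of `Spec R` with `M ∉ y`. -/
abbrev Points {R : Type} [CommRing R] (M : R) : Type := {y : MaximalSpectrum R // M ∉ y.asIdeal}

section
variable {R : Type} [CommRing R] {M : R} {N : ℕ}

/-- The local factor `P_{y,i}(q_y^{-s})⁻¹`. -/
noncomputable def factor (α : Points M → Fin N → ℂ) (s : ℂ) (y : Points M) : ℂ :=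
  ∏ j, (1 - α y j * (norm y.1 : ℂ) ^ (-s))⁻¹

/-- The function `Φ` is a meromorphic continuation of the Euler product `Φ_i` to a neighbourhood of the
segment from `s₀` to the edge `D + i/2` of absolute convergence. -/
structure Continues (D i : ℕ) (α : Points M → Fin N → ℂ) (s₀ : ℝ) (Φ : ℂ → ℂ) : Prop where
  meromorphic : ∀ x : ℝ, s₀ ≤ x → x ≤ D + (i : ℝ) / 2 → MeromorphicAt Φ (x : ℂ)
  product : ∀ s : ℂ, D + (i : ℝ) / 2 < s.re → HasProd (factor α s) (Φ s)

/-- The correction by the zeros and poles. -/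
noncomputable def correction (n : ℝ →₀ ℤ) (x : ℝ) (s : ℂ) : ℂ :=
  ∑ a ∈ n.support, (n a : ℂ) * ∑' k : ℕ, Complex.exp (-(((k : ℂ) + 1) * (s - a))) /
    (((k : ℂ) + 1) * (Real.Gamma (1 + ((k : ℝ) + 1) / Real.log x) : ℂ))

/-- The sum over the closed points with all the powers, with the correction by the divisor `n`. -/
noncomputable def powerMean (α : Points M → Fin N → ℂ) (n : ℝ →₀ ℤ) (x : ℝ) (s : ℂ) : ℂ :=
  (∑' z : Points M × ℕ, (∑ j, α z.1 j ^ (z.2 + 1)) / ((z.2 : ℂ) + 1) *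
      (norm z.1.1 : ℂ) ^ (-(((z.2 : ℂ) + 1) * s)) /
        (Real.Gamma (1 + ((z.2 : ℝ) + 1) * Real.log (norm z.1.1) / Real.log x) : ℂ)) +
    correction n x s

/-- The sum of the traces over the closed points, with the correction by the divisor `n`. -/
noncomputable def traceMean (α : Points M → Fin N → ℂ) (n : ℝ →₀ ℤ) (x : ℝ) (s : ℂ) : ℂ :=
  (∑' y : Points M, (∑ j, α y j) * (norm y.1 : ℂ) ^ (-s) /
      (Real.Gamma (1 + Real.log (norm y.1) / Real.log x) : ℂ)) +
    correction n x s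

/-- The rectangle around the segment `[a, b]`. -/
def Box (a b δ : ℝ) : Set ℂ := {s | a - δ ≤ s.re ∧ s.re ≤ b + 1 ∧ |s.im| ≤ δ}

/-- Boundedness on a rectangle around the segment along some sequence `x_k → ∞`. -/
def BoundedAlongSequence (Y : ℝ → ℂ → ℂ) (a b : ℝ) : Prop :=
  ∃ (δ C : ℝ) (x : ℕ → ℝ), 0 < δ ∧ Tendsto x atTop atTop ∧
    ∀ k, ∀ s ∈ Box a b δ, ‖Y (x k) s‖ ≤ C

/-- Convergence as `x → ∞` on a rectangle around the segment, with the error `O(1 / log x)`. -/
def ConvergesWithRate (Y : ℝ → ℂ → ℂ) (a b : ℝ) : Prop :=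
  ∃ (δ : ℝ) (G : ℂ → ℂ) (C x₁ : ℝ), 0 < δ ∧ ∀ x ≥ x₁, ∀ s ∈ Box a b δ,
    ‖Y x s - G s‖ ≤ C / Real.log x

/-- The kernel `e^{icu} / Γ(1 + u)`. -/
noncomputable def kernel (c u : ℝ) : ℂ :=
  Complex.exp ((c * u : ℝ) * Complex.I) * ((Real.Gamma (1 + u))⁻¹ : ℝ)

/-- The sum of the traces at `s₀`. -/
noncomputable def traceSum (α : Points M → Fin N → ℂ) (s₀ c x : ℝ) : ℂ :=
  ∑' y : Points M, (∑ j, α y j) * (((norm y.1 : ℝ) ^ (-s₀) : ℝ) : ℂ) *
    kernel c (Real.log (norm y.1) / Real.log x)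

/-- The sum of all the powers at `s₀`. -/
noncomputable def powerSum (α : Points M → Fin N → ℂ) (s₀ c x : ℝ) : ℂ :=
  ∑' z : Points M × ℕ, (∑ j, α z.1 j ^ (z.2 + 1)) / ((z.2 : ℂ) + 1) *
    (((norm z.1.1 : ℝ) ^ (-(((z.2 : ℝ) + 1) * s₀)) : ℝ) : ℂ) *
      kernel c (((z.2 : ℝ) + 1) * Real.log (norm z.1.1) / Real.log x)

/-- The contribution of the powers of order at least two. -/
noncomputable def higher (α : Points M → Fin N → ℂ) (s₀ : ℝ) : ℂ :=
  ∑' z : Points M × ℕ, (∑ j, α z.1 j ^ (z.2 + 2)) / ((z.2 : ℂ) + 2) *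
    (((norm z.1.1 : ℝ) ^ (-(((z.2 : ℝ) + 2) * s₀)) : ℝ) : ℂ)

end

/-- The constant `Λ_c`. -/
noncomputable def Lambda (c : ℝ) : ℂ := ∫ t in Set.Ioi (0 : ℝ),
  (Complex.exp (-(t : ℂ)) - Complex.exp ((c * t : ℝ) * Complex.I) * ((Real.Gamma (1 + t))⁻¹ : ℝ)) / t

/-- The number of the real zeros to the right of `s₀` minus the number of the real poles there. -/
noncomputable def excess (Φ : ℂ → ℂ) (s₀ : ℝ) : ℤ :=
  ∑ᶠ σ ∈ Set.Ioi s₀, (meromorphicOrderAt Φ (σ : ℂ)).untop₀

/-- The expansion of the sums `S c x` with the order `r` and the leading coefficient `L` of `Φ`. -/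
def Expansion (S : ℝ → ℝ → ℂ) (κ : ℂ) (s₀ : ℝ) (r : ℤ) (Φ : ℂ → ℂ) : Prop :=
  ∃ L : ℝ, L ≠ 0 ∧ Tendsto (fun s => (s - s₀) ^ (-r) * Φ s) (𝓝[≠] (s₀ : ℂ)) (𝓝 (L : ℂ)) ∧
    ∀ c : ℝ, Real.pi / 2 < c →
      (fun x : ℝ => S c x - (-(r * (Real.log (Real.log x) - Lambda c)) + Real.log |L| - κ -
        Real.pi * excess Φ s₀ * Complex.I)) =O[atTop] (fun x : ℝ => 1 / Real.log x)

/-- **The continuation and the order of `Φ_i` at `s₀` in terms of the closed points.** -/
theorem result {R K : Type} [CommRing R] [IsDomain R] [Algebra.FiniteType ℤ R] [Field K] [Algebra R K]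
    [IsFractionRing R K] {D : ℕ} (hD : HasDim K D) (hD1 : 1 ≤ D)
    {nv : ℕ} (X : Set (MvPolynomial (Fin nv) R)) {d i : ℕ} (hi : i ≤ 2 * d) {M : R} {N : ℕ}
    (α : Points M → Fin N → ℂ) (hα : ∀ y, IsFrobenius X d i y.1 (α y))
    {s₀ : ℝ} (h1 : ((i : ℝ) + 1) / 2 ≤ s₀) (h2 : s₀ ≤ D + (i : ℝ) / 2) (r : ℤ) :
    -- all the powers
    List.TFAE [
      ∃ Φ, Continues D i α s₀ Φ ∧ meromorphicOrderAt Φ s₀ = (r : WithTop ℤ),
      ∃ n : ℝ →₀ ℤ, n s₀ = r ∧ (∀ a, n a ≠ 0 → s₀ ≤ a ∧ a ≤ D + (i : ℝ) / 2) ∧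
        ConvergesWithRate (powerMean α n) s₀ (D + (i : ℝ) / 2),
      ∃ n : ℝ →₀ ℤ, n s₀ = r ∧ (∀ a, n a ≠ 0 → s₀ ≤ a ∧ a ≤ D + (i : ℝ) / 2) ∧
        BoundedAlongSequence (powerMean α n) s₀ (D + (i : ℝ) / 2),
      ∃ Φ, Continues D i α s₀ Φ ∧ Expansion (powerSum α s₀) 0 s₀ r Φ,
      ∃ Φ, Continues D i α s₀ Φ ∧ ∃ (c : ℝ) (x : ℕ → ℝ), Real.pi / 2 < c ∧
        Tendsto x atTop atTop ∧
        Tendsto (fun k => powerSum α s₀ c (x k) / Real.log (Real.log (x k))) atTop
          (𝓝 (-(r : ℂ)))] ∧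
    -- the traces
    (((D : ℝ) + i) / 2 < s₀ → List.TFAE [
      ∃ Φ, Continues D i α s₀ Φ ∧ meromorphicOrderAt Φ s₀ = (r : WithTop ℤ),
      ∃ n : ℝ →₀ ℤ, n s₀ = r ∧ (∀ a, n a ≠ 0 → s₀ ≤ a ∧ a ≤ D + (i : ℝ) / 2) ∧
        ConvergesWithRate (traceMean α n) s₀ (D + (i : ℝ) / 2),
      ∃ n : ℝ →₀ ℤ, n s₀ = r ∧ (∀ a, n a ≠ 0 → s₀ ≤ a ∧ a ≤ D + (i : ℝ) / 2) ∧
        BoundedAlongSequence (traceMean α n) s₀ (D + (i : ℝ) / 2),
      ∃ Φ, Continues D i α s₀ Φ ∧ Expansion (traceSum α s₀) (higher α s₀) s₀ r Φ,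
      ∃ Φ, Continues D i α s₀ Φ ∧ ∃ (c : ℝ) (x : ℕ → ℝ), Real.pi / 2 < c ∧
        Tendsto x atTop atTop ∧
        Tendsto (fun k => traceSum α s₀ c (x k) / Real.log (Real.log (x k))) atTop
          (𝓝 (-(r : ℂ)))]) := by
  have hinj : Function.Injective (algebraMap R K) := IsFractionRing.injective R K
  have hKD : Pool.Agent.J6H34.RC.KDim K D := hD
  have hE : Pool.Agent.J6H34.RC.Eig i α := Pool.Agent.J6H34.RC.eig_of_frob hi hα
  have hcont : ∀ (s₀ : ℝ) (Φ : ℂ → ℂ), Continues D i α s₀ Φ ↔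
      Pool.Agent.J6H34.RC.Cont D i α s₀ Φ := fun s₀ Φ =>
    ⟨fun h => ⟨h.meromorphic, h.product⟩, fun h => ⟨h.mero, h.prod⟩⟩
  simp only [hcont]
  exact ⟨Pool.Agent.J6H34.RC.tfae_full hinj hKD hD1 hE h1 h2 r,
    fun h3 => Pool.Agent.J6H34.RC.tfae_trs hinj hKD hD1 hE h1 h2 h3 r⟩

end Pool.Agent.Results.MP_9faec4_nt.ClosedPointLaw
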