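import Pool.Agent.R410.EP.Mod
import Pool.Agent.R410.EP.Sep
import Pool.Agent.R410.NG.CBn
import Pool.Agent.R410.NG.Nat3

/-!
# Tate's form of the Birch–Swinnerton-Dyer conjecture for the hyperelliptic curves
`Y² = a(X) w² + b(X) w + c(X)` of every genus

Let `M` be a finitely generated field of characteristic zero and of transcendence degree `d` over `ℚ`, and
let `K = M(w)` be the field of rational functions over `M`.  Let `a, b, c ∈ M[X]`, where `c` is monic of
degree `2g + 1`, the degrees of `a` and `b` are less than `2g + 1`, and `b² - 4ac ≠ 0`.  Let `X` be the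
hyperelliptic curve `Y² = a(X) w² + b(X) w + c(X)` of genus `g` over `K`, and assume that it is smooth.
It has one point at infinity, and it is rational: `Pic⁰_{X/K}(K)` is the group `J(K)` of the
points of its Jacobian, and it is the class group of the ring `K[X, Y] / (Y² - a w² - b w - c)`.

We prove Tate's conjecture (Q1) for `X` over `K`, with `n = d + 2 = trdeg K + 1`, the dimension of the
models.

* The rank of `J(K)` is `σ - ε`, where `σ` is the number of the monic irreducible
  polynomials `δ ∈ M[X]` such that `a w² + b w + c` is modulo `δ` the square of a nonzero polynomial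
  `r w + s` (the fibres of the conic bundle `Y² = a w² + b w + c` over the `X`-line which split), and
  `ε = 1` if `a` is a nonzero square, and `ε = 0` otherwise (such a `δ` divides `b² - 4ac`).
* Let `R` be any integral domain which is finitely generated as a ring and has the field of fractions `K`,
  over which the curve has an equation `Y² = G(X)`.  For some `N ≠ 0` of `R` the fibres over all the closed
  points of `Spec R` with `N ≠ 0` are smooth.  For each nonzero `N` of `R`, the Euler product over the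
  closed points of `Spec R` with `N ≠ 0` converges for `Re s > n + 1/2`, it continues to an analytic function
  for `Re s > n`, which is meromorphic at `s = n`, and its order of vanishing there is the
  rank `σ - ε` of `J(K)`.

The local factor is `P_{y,1}(T)⁻¹ = exp (∑_{j ≥ 1} t_j T ^ j / j)`, where
`t_j` is the trace on `H¹` of the `j`-th power of the Frobenius of the fibre, that is (Lefschetz)
`N(y) ^ j` minus the number of the affine points of the fibre over the extension of degree `j`.
-/

set_option autoImplicit false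

namespace Pool.Agent.Results.MP_9faec4_nt.ConicBundleCurves

open Polynomial

/-- The polynomial `c(X) + w b(X) + w² a(X)` over `K`. -/
noncomputable def curve {M K : Type} [Field M] [Field K] [Algebra M K] (a b c : M[X]) (w : K) : K[X] :=
  c.map (algebraMap M K) + C w * b.map (algebraMap M K) + C (w ^ 2) * a.map (algebraMap M K)

/-- Modulo `δ`, the polynomial `a w² + b w + c` is the square of a nonzero polynomial `r w + s`. -/
def IsSplit {M : Type} [Field M] (a b c δ : M[X]) : Prop :=
  ∃ r s : M[X], δ ∣ a - r ^ 2 ∧ δ ∣ b - 2 * r * s ∧ δ ∣ c - s ^ 2 ∧ ¬ (δ ∣ r ∧ δ ∣ s)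

/-- The number of the monic irreducible polynomials over which the conic splits. -/
noncomputable def sigma {M : Type} [Field M] (a b c : M[X]) : ℕ :=
  Nat.card {δ : M[X] // δ.Monic ∧ Irreducible δ ∧ IsSplit a b c δ}

open Classical in
/-- The rank: `σ - 1` if `a` is a nonzero square, and `σ` otherwise. -/
noncomputable def rho {M : Type} [Field M] (a b c : M[X]) : ℕ :=
  sigma a b c - if a ≠ 0 ∧ IsSquare a then 1 else 0

/-- The rank of the class group of the ring `K[X, Y] / (Y² - F(X))`. -/
def ClassGroupHasRank {K : Type} [Field K] (F : K[X]) (n : ℕ) : Prop :=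
  ∃ _ : IsDomain (AdjoinRoot (X ^ 2 - C F : K[X][X])),
    Module.rank ℤ (Additive (ClassGroup (AdjoinRoot (X ^ 2 - C F : K[X][X])))) = n

/-- The number of the points `(x, y)` of the affine curve `y² = g(x)` over the algebraic closure of the field
`k` with `x ^ n = x` and `y ^ n = y`: if `k` has `q` elements and `n = q ^ j`, these are the points over the
extension of `k` of degree `j`. -/
noncomputable def points (k : Type) [Field k] (g : k[X]) (n : ℕ) : ℕ :=
  Nat.card {P : AlgebraicClosure k × AlgebraicClosure k //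
    P.1 ^ n = P.1 ∧ P.2 ^ n = P.2 ∧ P.2 ^ 2 = aeval P.1 g}

/-- The norm of a closed point: the number of the elements of the residue field. -/
noncomputable def norm {R : Type} [CommRing R] (y : MaximalSpectrum R) : ℕ := Nat.card (R ⧸ y.asIdeal)

/-- The trace on `H¹` of the `j`-th power of the Frobenius of the fibre of the curve `Y² = G(X)`: the number
`N(y) ^ j - #(affine points of the fibre over the extension of degree j)`. -/
noncomputable def traceOne {R : Type} [CommRing R] (G : R[X]) (y : MaximalSpectrum R) (j : ℕ) : ℝ :=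
  letI : Field (R ⧸ y.asIdeal) := Ideal.Quotient.field y.asIdeal
  ((norm y ^ j : ℕ) : ℝ) - points (R ⧸ y.asIdeal) (G.map (Ideal.Quotient.mk y.asIdeal)) (norm y ^ j)

/-- The local factor `P_{y,1}(T)⁻¹ = det(1 - Frob_y T | H¹)⁻¹ = exp (∑_{j ≥ 1} t_j T ^ j / j)`. -/
noncomputable def factor {R : Type} [CommRing R] (G : R[X]) (y : MaximalSpectrum R) (T : ℂ) : ℂ :=
  Complex.exp (∑' j : ℕ, (traceOne G y (j + 1) : ℂ) / ((j + 1 : ℕ) : ℂ) * T ^ (j + 1))

/-- **Tate's conjecture for all the hyperelliptic curves `Y² = a(X) w² + b(X) w + c(X)` over `M(w)`, for an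
arbitrary finitely generated field `M` of characteristic zero and for every model.** -/
theorem result {M : Type} [Field M] [CharZero M]
    (hM : ∃ S : Finset M, Subfield.closure (S : Set M) = ⊤) {d : ℕ} (hd : Algebra.trdeg ℚ M = d)
    {K : Type} [Field K] [CharZero K] [Algebra M K] {w : K} (hw : Transcendental M w)
    (hK : IntermediateField.adjoin M {w} = ⊤)
    {g : ℕ} {a b c : M[X]} (hc : c.Monic) (hcd : c.natDegree = 2 * g + 1)
    (ha : a.natDegree < 2 * g + 1) (hb : b.natDegree < 2 * g + 1) (hΔ : b ^ 2 - 4 * a * c ≠ 0)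
    (hs : (curve a b c w).Separable) :
    Algebra.trdeg ℚ K = (d + 1 : ℕ) ∧
    (curve a b c w).Monic ∧ (curve a b c w).natDegree = 2 * g + 1 ∧
    -- the algebraic side: the rank of `J(K)`
    Finite {δ : M[X] // δ.Monic ∧ Irreducible δ ∧ IsSplit a b c δ} ∧
    (a ≠ 0 ∧ IsSquare a → 1 ≤ sigma a b c) ∧
    ClassGroupHasRank (curve a b c w) (rho a b c) ∧
    -- the analytic side: the Euler product, for every model
    ∀ (R : Type) [CommRing R] [IsDomain R] [Algebra.FiniteType ℤ R] [Algebra R K]
      [IsFractionRing R K] (G : R[X]), G.Monic → G.map (algebraMap R K) = curve a b c w →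
      (∃ N : R, N ≠ 0 ∧ ∀ y : MaximalSpectrum R, N ∉ y.asIdeal → (2 : R) ∉ y.asIdeal ∧
        (G.map (Ideal.Quotient.mk y.asIdeal)).Separable) ∧
      ∀ N : R, N ≠ 0 → ∃ Φ : ℂ → ℂ,
        (∀ s : ℂ, ((d + 2 : ℕ) : ℝ) + 1 / 2 < s.re →
          HasProd (fun y : {y : MaximalSpectrum R // N ∉ y.asIdeal} =>
            factor G y.1 ((norm y.1 : ℂ) ^ (-s))) (Φ s)) ∧
        DifferentiableOn ℂ Φ {s : ℂ | ((d + 2 : ℕ) : ℝ) < s.re} ∧
        MeromorphicAt Φ ((d + 2 : ℕ) : ℂ) ∧
        meromorphicOrderAt Φ ((d + 2 : ℕ) : ℂ) = ((rho a b c : ℤ) : WithTop ℤ) := by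
  classical
  have hF : curve a b c w = Pool.Agent.R410.CB.fq a b c w := by
    rw [Pool.Agent.R410.CB.fq_eq]
    rfl
  have hodd : Odd c.natDegree := by rw [hcd]; exact ⟨g, rfl⟩
  have hac : a.natDegree < c.natDegree := by rw [hcd]; exact ha
  have hbc : b.natDegree < c.natDegree := by rw [hcd]; exact hb
  have hSp : ∀ δ : M[X], IsSplit a b c δ ↔ ∃ r s : M[X], Pool.Agent.R410.CB.Spl a b c δ r s := by
    intro δ
    constructor
    · rintro ⟨r, s, h1, h2, h3, h4⟩
      exact ⟨r, s, h1, h2, h3, h4⟩
    · rintro ⟨r, s, h⟩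
      exact ⟨r, s, h.ha, h.hb, h.hc, h.ne⟩
  let e : {δ : M[X] // δ.Monic ∧ Irreducible δ ∧ IsSplit a b c δ} ≃ Pool.Agent.R410.NG.SplT a b c :=
    Equiv.subtypeEquivRight fun δ => by rw [hSp δ]
  have hσ : sigma a b c = Nat.card (Pool.Agent.R410.NG.SplT a b c) := Nat.card_congr e
  have hfin : Finite (Pool.Agent.R410.NG.SplT a b c) :=
    Pool.Agent.R410.NG.finite_spl two_ne_zero hΔ
  have hsq : Squarefree (Pool.Agent.R410.CB.fq a b c w) := by
    rw [← hF]
    exact hs.squarefree
  obtain ⟨h1, h2⟩ := Pool.Agent.R410.NG.rank_cb' hw hK hodd hac hbc hsq hΔ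
  have hnd : (curve a b c w).natDegree = 2 * g + 1 := by
    rw [hF, Pool.Agent.R410.CB.deg_fq hac hbc, hcd]
  have hmon : (curve a b c w).Monic := by
    rw [Monic, leadingCoeff, hnd]
    unfold curve
    rw [coeff_add, coeff_add, coeff_C_mul, coeff_C_mul, coeff_map, coeff_map, coeff_map,
      coeff_eq_zero_of_natDegree_lt ha, coeff_eq_zero_of_natDegree_lt hb, ← hcd]
    have : c.coeff c.natDegree = 1 := hc
    rw [this, map_one, map_zero, mul_zero, mul_zero, add_zero, add_zero]
  have hρ : (rho a b c : ℤ) = (Nat.card (Pool.Agent.R410.NG.SplT a b c) : ℤ) -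
      if a ≠ 0 ∧ IsSquare a then 1 else 0 := by
    unfold rho
    rw [hσ]
    by_cases h : a ≠ 0 ∧ IsSquare a
    · rw [if_pos h, if_pos h, Nat.cast_sub (h2 h)]
      push_cast
      rfl
    · rw [if_neg h, if_neg h, Nat.sub_zero, sub_zero]
  have htr : Algebra.trdeg ℚ K = (d + 1 : ℕ) := Pool.Agent.R410.NG.trdeg_line hd hw hK
  refine ⟨htr, hmon, hnd, Finite.of_equiv _ e.symm, ?_, ?_, ?_⟩
  · rw [hσ]
    exact h2
  · unfold ClassGroupHasRank rho
    rw [hσ, hF]
    exact h1
  · intro R _ _ _ _ _ G hG hGK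
    refine ⟨Pool.Agent.R410.EP.exists_good (K := K) (by rw [hGK]; exact hs), ?_⟩
    intro N hN
    have hgd : G.natDegree = c.natDegree := by
      have h5 : (G.map (algebraMap R K)).natDegree = G.natDegree := hG.natDegree_map _
      rw [← h5, hGK, hnd, hcd]
    obtain ⟨B, i1, i2, i3, i4, i5, g', hg', hasy⟩ :=
      Pool.Agent.R410.EP.model_cb hM hd hw hK hΔ
    obtain ⟨Φ, p1, p2, p3, p4⟩ := Pool.Agent.R410.EP.euler_any (K := K) (e := d + 1)
      (le_of_eq htr) hG (by rw [hgd]; exact hodd) (g' := g') (by rw [hGK, hF, hg']) hN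
      (one_ne_zero : (1 : B) ≠ 0) hasy
    have e1 : ((d + 2 : ℕ) : ℂ) = ((d + 1 : ℕ) : ℂ) + 1 := by
      push_cast
      ring
    refine ⟨Φ, ?_, ?_, ?_, ?_⟩
    · intro s hs'
      have h6 := p1 s (by push_cast at hs' ⊢; linarith)
      have h7 : (fun y : {y : MaximalSpectrum R // N ∉ y.asIdeal} =>
          factor G y.1 ((norm y.1 : ℂ) ^ (-s))) = fun y : {y : Pool.Agent.TH958.An.Pt R //
            N ∉ y.asIdeal} => Pool.Agent.R410.EP.Zy G y.1
              ((Pool.Agent.TH958.An.qy y.1 : ℂ) ^ (-s)) := rfl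
      rw [h7]
      exact h6
    · refine p2.mono fun s hs' => ?_
      have h8 : ((d + 2 : ℕ) : ℝ) < s.re := hs'
      show ((d + 1 : ℕ) : ℝ) + 1 < s.re
      push_cast at h8 ⊢
      linarith
    · rw [e1]
      exact p3
    · rw [e1, hρ]
      exact p4

end Pool.Agent.Results.MP_9faec4_nt.ConicBundleCurves
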