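import Pool.Agent.J6H36.PT.Mod
import Pool.Agent.R410.EP.Sep

/-!
# Tate's form of the Birch–Swinnerton-Dyer conjecture for product twists of hyperelliptic curves of every genus

Let `M` be a finitely generated field of characteristic zero and of transcendence degree `d` over `ℚ`, and
let `K = M(s, t)` be the field of rational functions of two variables over `M`.  Let `f ∈ M[X]` be monic and
separable, of odd degree `2g + 1`, and let `H₁, H₂ ∈ M[X]` be squarefree polynomials of positive degree.
Let `X` be the quadratic twist of the hyperelliptic curve `y² = f(x)` of genus `g` by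
`D = H₁(s) H₂(t)`, that is the curve `D y² = f(x)`, or
`Y² = D ^ (2g + 1) f(X / D)`, over `K`.  It has one point at infinity, and it is rational: `Pic⁰_{X/K}(K)`
is the group `J(K)` of the points of its Jacobian, and it is the class group of the ring
`K[X, Y] / (Y² - D ^ (2g + 1) f(X / D))`.

We prove Tate's conjecture (Q1) for `X` over `K`, with `n = d + 3 = trdeg K + 1`, the dimension of the models.

* The group `J(K)` is finite, it is killed by `2`, and its rank is `0`.
* Let `R` be any integral domain which is finitely generated as a ring and has the field of fractions `K`,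
  over which the curve has an equation `Y² = G(X)`.  For some `N ≠ 0` of `R` the fibres over all the closed
  points of `Spec R` with `N ≠ 0` are smooth.  For each nonzero `N` of `R`, the Euler product over the
  closed points of `Spec R` with `N ≠ 0` converges for `Re s > n + 1/2`, it continues to an analytic function
  for `Re s > n`, which is meromorphic at `s = n`, and its order there is `0`, the rank of `J(K)`.

The local factor is `P_{y,1}(T)⁻¹ = exp (∑_{j ≥ 1} t_j T ^ j / j)`, where
`t_j` is the trace on `H¹` of the `j`-th power of the Frobenius of the fibre, that is (Lefschetz)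
`N(y) ^ j` minus the number of the affine points of the fibre over the extension of degree `j`.
-/

set_option autoImplicit false

namespace Pool.Agent.Results.MP_9faec4_nt.ProductTwistsAllGenera

open Polynomial

/-- The polynomial `D ^ n f(X / D)` over `K`, where `n` is the degree of `f` and `D = H₁(s) H₂(t)`: if
`f = ∑ c_i X ^ i`, this is `∑ c_i D ^ (n - i) X ^ i`. -/
noncomputable def curve {M K : Type} [Field M] [Field K] [Algebra M K] (f H₁ H₂ : M[X]) (s t : K) :
    K[X] :=
  (f.map (algebraMap M K)).scaleRoots (aeval s H₁ * aeval t H₂)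

/-- The number of the points `(x, y)` of the affine curve `y² = g(x)` over the algebraic closure of the field
`k` with `x ^ n = x` and `y ^ n = y`: if `k` has `q` elements and `n = q ^ j`, these are the points over the
extension of `k` of degree `j`. -/
noncomputable def points (k : Type) [Field k] (g : k[X]) (n : ℕ) : ℕ :=
  Nat.card {P : AlgebraicClosure k × AlgebraicClosure k //
    P.1 ^ n = P.1 ∧ P.2 ^ n = P.2 ∧ P.2 ^ 2 = aeval P.1 g}

/-- The norm of a closed point: the number of the elements of the residue field. -/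
noncomputable def norm {R : Type} [CommRing R] (y : MaximalSpectrum R) : ℕ := Nat.card (R ⧸ y.asIdeal)

/-- The trace on `H¹` of the `j`-th power of the Frobenius of the fibre of the curve `Y² = G(X)`: the number
`N(y) ^ j - #(affine points of the fibre over the extension of degree j)`. -/
noncomputable def traceOne {R : Type} [CommRing R] (G : R[X]) (y : MaximalSpectrum R) (j : ℕ) : ℝ :=
  letI : Field (R ⧸ y.asIdeal) := Ideal.Quotient.field y.asIdeal
  ((norm y ^ j : ℕ) : ℝ) - points (R ⧸ y.asIdeal) (G.map (Ideal.Quotient.mk y.asIdeal)) (norm y ^ j)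

/-- The local factor `P_{y,1}(T)⁻¹ = det(1 - Frob_y T | H¹)⁻¹ = exp (∑_{j ≥ 1} t_j T ^ j / j)`. -/
noncomputable def factor {R : Type} [CommRing R] (G : R[X]) (y : MaximalSpectrum R) (T : ℂ) : ℂ :=
  Complex.exp (∑' j : ℕ, (traceOne G y (j + 1) : ℂ) / ((j + 1 : ℕ) : ℂ) * T ^ (j + 1))

/-- **Tate's conjecture for the quadratic twists by `H₁(s) H₂(t)` of all the hyperelliptic curves
`y² = f(x)` over `M`, for an arbitrary finitely generated field `M` of characteristic zero and for every
model.** -/
theorem result {M : Type} [Field M] [CharZero M]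
    (hM : ∃ S : Finset M, Subfield.closure (S : Set M) = ⊤) {d : ℕ} (hd : Algebra.trdeg ℚ M = d)
    {K : Type} [Field K] [CharZero K] [Algebra M K] {s t : K}
    (hst : AlgebraicIndependent M ![s, t]) (hK : IntermediateField.adjoin M {s, t} = ⊤)
    {g : ℕ} {f H₁ H₂ : M[X]} (hf : f.Monic) (hfd : f.natDegree = 2 * g + 1) (hfs : f.Separable)
    (h₁ : Squarefree H₁) (h₁d : 0 < H₁.natDegree) (h₂ : Squarefree H₂) (h₂d : 0 < H₂.natDegree) :
    Algebra.trdeg ℚ K = (d + 2 : ℕ) ∧
    (curve f H₁ H₂ s t).Monic ∧ (curve f H₁ H₂ s t).natDegree = 2 * g + 1 ∧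
    (curve f H₁ H₂ s t).Separable ∧
    -- the algebraic side: the group `J(K)` is finite and killed by `2`, and its rank is `0`
    (∃ _ : IsDomain (AdjoinRoot (X ^ 2 - C (curve f H₁ H₂ s t) : K[X][X])),
      Finite (ClassGroup (AdjoinRoot (X ^ 2 - C (curve f H₁ H₂ s t) : K[X][X]))) ∧
      (∀ c : ClassGroup (AdjoinRoot (X ^ 2 - C (curve f H₁ H₂ s t) : K[X][X])), c ^ 2 = 1) ∧
      Module.rank ℤ
        (Additive (ClassGroup (AdjoinRoot (X ^ 2 - C (curve f H₁ H₂ s t) : K[X][X])))) = 0) ∧
    -- the analytic side: the Euler product, for every model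
    ∀ (R : Type) [CommRing R] [IsDomain R] [Algebra.FiniteType ℤ R] [Algebra R K]
      [IsFractionRing R K] (G : R[X]), G.Monic → G.map (algebraMap R K) = curve f H₁ H₂ s t →
      (∃ N : R, N ≠ 0 ∧ ∀ y : MaximalSpectrum R, N ∉ y.asIdeal → (2 : R) ∉ y.asIdeal ∧
        (G.map (Ideal.Quotient.mk y.asIdeal)).Separable) ∧
      ∀ N : R, N ≠ 0 → ∃ Φ : ℂ → ℂ,
        (∀ s : ℂ, ((d + 3 : ℕ) : ℝ) + 1 / 2 < s.re →
          HasProd (fun y : {y : MaximalSpectrum R // N ∉ y.asIdeal} =>
            factor G y.1 ((norm y.1 : ℂ) ^ (-s))) (Φ s)) ∧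
        DifferentiableOn ℂ Φ {s : ℂ | ((d + 3 : ℕ) : ℝ) < s.re} ∧
        MeromorphicAt Φ ((d + 3 : ℕ) : ℂ) ∧
        meromorphicOrderAt Φ ((d + 3 : ℕ) : ℂ) = 0 := by
  classical
  have hF : curve f H₁ H₂ s t = Pool.Agent.J6H36.PT.tw K f H₁ H₂ s t := rfl
  have hs₁ : H₁.Separable := PerfectField.separable_iff_squarefree.2 h₁
  have hs₂ : H₂.Separable := PerfectField.separable_iff_squarefree.2 h₂
  have hodd : Odd f.natDegree := by rw [hfd]; exact ⟨g, rfl⟩
  have htr : Algebra.trdeg ℚ K = (d + 2 : ℕ) := Pool.Agent.J6H36.PT.trdeg_two hd hst hK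
  have hmon : (curve f H₁ H₂ s t).Monic := Pool.Agent.J6H36.PT.tw_monic hf H₁ H₂ s t
  have hnd : (curve f H₁ H₂ s t).natDegree = 2 * g + 1 := by
    rw [hF, Pool.Agent.J6H36.PT.tw_deg, hfd]
  have hsep : (curve f H₁ H₂ s t).Separable :=
    PerfectField.separable_iff_squarefree.2
      (Pool.Agent.J6H36.PT.tw_sqf hst hs₁.ne_zero hs₂.ne_zero hfs)
  refine ⟨htr, hmon, hnd, hsep, Pool.Agent.J6H36.PT.tw_rank hst hK hs₁ hs₂ h₁d h₂d hf hfs hfd, ?_⟩
  intro R _ _ _ _ _ G hG hGK
  refine ⟨Pool.Agent.R410.EP.exists_good (K := K) (by rw [hGK]; exact hsep), ?_⟩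
  intro N hN
  have hgd : G.natDegree = 2 * g + 1 := by
    have h5 : (G.map (algebraMap R K)).natDegree = G.natDegree := hG.natDegree_map _
    rw [← h5, hGK, hnd]
  obtain ⟨B, i1, i2, i3, i4, i5, g', hg', hasy⟩ :=
    Pool.Agent.J6H36.PT.model_tw hM hd hst hK hf hodd hs₁ hs₂ h₁d h₂d
  have hasy' : Pool.Agent.R410.NG.Asy
      (fun F _ _ => Pool.Agent.R410.NG.sT Pool.Agent.R410.NG.wtc g' 1 F) (d + 2) ((0 : ℤ) : ℝ) := by
    rw [Int.cast_zero]
    exact hasy
  obtain ⟨Φ, p1, p2, p3, p4⟩ := Pool.Agent.R410.EP.euler_any (K := K) (e := d + 2)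
    (le_of_eq htr) hG (by rw [hgd]; exact ⟨g, rfl⟩) (g' := g') (by rw [hGK, hF, hg']) hN
    (one_ne_zero : (1 : B) ≠ 0) hasy'
  have e1 : ((d + 3 : ℕ) : ℂ) = ((d + 2 : ℕ) : ℂ) + 1 := by
    push_cast
    ring
  refine ⟨Φ, ?_, ?_, ?_, ?_⟩
  · intro z hz
    have h6 := p1 z (by push_cast at hz ⊢; linarith)
    have h7 : (fun y : {y : MaximalSpectrum R // N ∉ y.asIdeal} =>
        factor G y.1 ((norm y.1 : ℂ) ^ (-z))) = fun y : {y : Pool.Agent.TH958.An.Pt R //
          N ∉ y.asIdeal} => Pool.Agent.R410.EP.Zy G y.1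
            ((Pool.Agent.TH958.An.qy y.1 : ℂ) ^ (-z)) := rfl
    rw [h7]
    exact h6
  · refine p2.mono fun z hz => ?_
    have h8 : ((d + 3 : ℕ) : ℝ) < z.re := hz
    show ((d + 2 : ℕ) : ℝ) + 1 < z.re
    push_cast at h8 ⊢
    linarith
  · rw [e1]
    exact p3
  · rw [e1, p4]
    rfl

end Pool.Agent.Results.MP_9faec4_nt.ProductTwistsAllGenera
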